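import Pool.Agent.helper97.AS.Spec

/-!
# Project AS (MP_c8175e_co), row ROT
-/

set_option autoImplicit false

namespace Pool.Agent.helper97.AS

open Pool.Agent.helper20.LB (Step F IsSq Same Bd co)

theorem ROT_lin {f : ℤ → ℤ} {c : ℤ} (h : ∀ y, f (y + 1) = f y + c) (y : ℤ) (k : ℕ) :
    f (y + k) = f y + c * k := by
  induction k with
  | zero => simp
  | succ k ih =>
    have e : y + ((k + 1 : ℕ) : ℤ) = (y + k) + 1 := by push_cast; ring
    rw [e, h, ih]
    push_cast
    ring

theorem ROT_const {f : ℤ → ℤ} {c : ℤ} (hf : Step f) (h : ∀ y, f (y + 1) = f y + c) (x p M : ℤ) (hM : 0 ≤ M) :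
    Good f x p M := by
  have hc := hf 0
  rw [h 0] at hc
  have hT : TT f x M = c * (M + 2) := by
    unfold TT
    have h1 := ROT_lin h (x - 1) (M + 2).toNat
    rw [Int.toNat_of_nonneg (by omega)] at h1
    have e : x - 1 + (M + 2) = x + M + 1 := by ring
    rw [e] at h1
    rw [h1]
    ring
  refine Or.inr (Or.inr ?_)
  rw [hT]
  have hc01 : c = 0 ∨ c = 1 := by omega
  rcases hc01 with rfl | rfl
  · have e1 : (0 : ℤ) * (M + 2) = 0 := by ring
    rw [e1]
    unfold kk
    omega
  · have e1 : (1 : ℤ) * (M + 2) = M + 2 := by ring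
    rw [e1]
    unfold kk
    omega

theorem ROT_two {f : ℤ → ℤ} {e : ℤ} (hf : Step f) (h : ∀ y, f (y + 2) = f y + e) (x p M : ℤ) (hM : 0 ≤ M) :
    Good f x p M ∨ ∀ y, f (y + 2) = f y + 1 := by
  have h0 := h 0
  have h1 := hf 0
  have h2 := hf (0 + 1)
  have e12 : (0 : ℤ) + 1 + 1 = 0 + 2 := by norm_num
  rw [e12] at h2
  have he : e = 0 ∨ e = 1 ∨ e = 2 := by omega
  rcases he with rfl | rfl | rfl
  · left
    refine ROT_const (c := 0) hf (fun y => ?_) x p M hM
    have a1 := hf y
    have a2 := hf (y + 1)
    have e3 : y + 1 + 1 = y + 2 := by ring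
    rw [e3] at a2
    have a3 := h y
    omega
  · right
    exact h
  · left
    refine ROT_const (c := 1) hf (fun y => ?_) x p M hM
    have a1 := hf y
    have a2 := hf (y + 1)
    have e3 : y + 1 + 1 = y + 2 := by ring
    rw [e3] at a2
    have a3 := h y
    omega

theorem ROT_per {f : ℤ → ℤ} {p τ : ℤ} (h : ∀ x, f (x + p) = f x + τ) (k : ℤ) (x : ℤ) :
    f (x + k * p) = f x + k * τ := by
  induction k using Int.induction_on with
  | zero => simp
  | succ k ih =>
    have e : x + ((k : ℤ) + 1) * p = (x + k * p) + p := by ring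
    rw [e, h, ih]
    ring
  | pred k ih =>
    have h1 := h (x + (-(k : ℤ) - 1) * p)
    have e : x + (-(k : ℤ) - 1) * p + p = x + -(k : ℤ) * p := by ring
    rw [e, ih] at h1
    linarith

theorem ROT_same {f : ℤ → ℤ} {s t : ℤ × ℤ} (h : ¬ Same f s t) : ¬ Same (co f) s t := by
  intro h1
  refine h ⟨h1.1, fun j h2 h3 => ?_⟩
  have h4 := h1.2 j h2 h3
  unfold co at h4
  linarith

theorem ROT_main {f : ℤ → ℤ} {p τ x M i j : ℤ} (hP : Per f p τ) (h3 : 3 ≤ p) (hM : 2 * p - 1 ≤ M)
    (hi : x ≤ i) (hij : i < j) (hj : j ≤ x + 2) (hl : f (i + 1) - f i = f (j + 1) - f j) :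
    Good f x p M ∨ ∀ y, f (y + 2) = f y + 1 := by
  obtain ⟨hf, hp, hper⟩ := hP
  have hfi := hf i
  have hsq : ∀ u, x ≤ u → u ≤ x + 2 → Sq f x (x + p + M) (u + p, p) := by
    intro u hu1 hu2
    refine ⟨hp, ?_, ?_, ?_⟩
    · show x ≤ u + p - p
      linarith
    · show u + p + p ≤ x + p + M
      linarith
    · show F f (u + p) p = 0
      unfold F
      have e1 : u + p - p = u := by ring
      rw [e1, hper (u + p), hper u]
      ring
  have hsqc : ∀ u, x ≤ u → u ≤ x + 2 → Sq (co f) x (x + p + M) (u + p, p) := by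
    intro u hu1 hu2
    obtain ⟨a1, a2, a3, a4⟩ := hsq u hu1 hu2
    refine ⟨a1, a2, a3, ?_⟩
    have a5 : F f (u + p) p = 0 := a4
    show F (co f) (u + p) p = 0
    unfold F co
    unfold F at a5
    linarith
  have hlev : ∀ u, f (u + p + p) - f (u + p) = τ := by
    intro u
    rw [hper (u + p)]
    ring
  have hlet : ∀ u, f (u + p + 1) = f (u + 1) + τ := by
    intro u
    have e1 : u + p + 1 = u + 1 + p := by ring
    rw [e1, hper]
  by_cases hS : Same f (i + p, p) (j + p, p)
  · -- the same word
    have hc : ∀ z, f (z + (j - i)) = f z + (f (j + p) - f (i + p)) := by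
      have hc0 : ∀ z, i ≤ z → z ≤ i + 2 * p → f (z + (j - i)) = f z + (f (j + p) - f (i + p)) := by
        intro z h1 h2
        have h4 := hS.2 (z - i - p) (by show -p ≤ z - i - p; linarith) (by show z - i - p ≤ p; linarith)
        have h5 : f (i + p + (z - i - p)) - f (i + p) = f (j + p + (z - i - p)) - f (j + p) := h4
        have e1 : i + p + (z - i - p) = z := by ring
        have e2 : j + p + (z - i - p) = z + (j - i) := by ring
        rw [e1, e2] at h5
        linarith
      intro z
      have hp0 : p ≠ 0 := by omega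
      have m1 := Int.emod_nonneg (z - i) hp0
      have m2 := Int.emod_lt_of_pos (z - i) (show 0 < p by omega)
      have m3 := Int.emod_add_mul_ediv (z - i) p
      set r := (z - i) % p with hr
      set k := (z - i) / p with hk
      have ez : z = (i + r) + k * p := by linarith [mul_comm k p]
      have h6 := hc0 (i + r) (by linarith) (by linarith)
      have ez2 : z + (j - i) = (i + r + (j - i)) + k * p := by linarith
      rw [ez2, ROT_per hper, h6]
      conv_rhs => rw [ez]
      rw [ROT_per hper]
      ring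
    have hd : j - i = 1 ∨ j - i = 2 := by omega
    rcases hd with hd | hd
    · rw [hd] at hc
      left
      exact ROT_const hf hc x p M (by linarith)
    · rw [hd] at hc
      exact ROT_two hf hc x p M (by linarith)
  · left
    have ha : f (i + 1) - f i = 1 ∨ f (i + 1) - f i = 0 := by omega
    rcases ha with ha | ha
    · left
      right
      refine ⟨τ, (i + p, p), (j + p, p), ⟨hsq i hi (by linarith), ?_, hlev i⟩,
        ⟨hsq j (by linarith) hj, ?_, hlev j⟩, hS⟩
      · show f (i + p + 1) = f (i + p) + 1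
        rw [hlet, hper]
        linarith
      · show f (j + p + 1) = f (j + p) + 1
        rw [hlet, hper]
        linarith
    · right
      left
      right
      refine ⟨p - τ, (i + p, p), (j + p, p), ⟨hsqc i hi (by linarith), ?_, ?_⟩,
        ⟨hsqc j (by linarith) hj, ?_, ?_⟩, ROT_same hS⟩
      · show co f (i + p + 1) = co f (i + p) + 1
        unfold co
        rw [hlet, hper]
        linarith
      · show co f (i + p + p) - co f (i + p) = p - τ
        unfold co
        have := hlev i
        linarith
      · show co f (j + p + 1) = co f (j + p) + 1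
        unfold co
        rw [hlet, hper]
        linarith
      · show co f (j + p + p) - co f (j + p) = p - τ
        unfold co
        have := hlev j
        linarith

theorem ROT : ROT_stmt := by
  intro f p τ x M hP hM
  have hP' := hP
  obtain ⟨hf, hp, hper⟩ := hP
  have hM0 : 0 ≤ M := by linarith
  have hcase : p = 1 ∨ p = 2 ∨ 3 ≤ p := by omega
  rcases hcase with rfl | rfl | h3
  · left
    exact ROT_const hf hper x 1 M hM0
  · exact ROT_two hf hper x 2 M hM0
  · have a1 := hf x
    have a2 := hf (x + 1)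
    have a3 := hf (x + 2)
    have hpig : f (x + 1) - f x = f (x + 1 + 1) - f (x + 1) ∨ f (x + 1) - f x = f (x + 2 + 1) - f (x + 2) ∨
        f (x + 1 + 1) - f (x + 1) = f (x + 2 + 1) - f (x + 2) := by omega
    rcases hpig with h | h | h
    · exact ROT_main hP' h3 hM (le_refl x) (by linarith) (by linarith) h
    · exact ROT_main hP' h3 hM (le_refl x) (by linarith) (le_refl _) h
    · exact ROT_main hP' h3 hM (show x ≤ x + 1 by linarith) (by linarith) (le_refl _) h

end Pool.Agent.helper97.AS
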